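import Pool.Agent.Helper14.FO.Defs

/-! FNP: properties of final nodes -/

set_option autoImplicit false

namespace Pool.Agent.Helper14.FO

open Finset Matrix

theorem st_FNP (h1 : ST_CCT) (h2 : ST_TEN) (h3 : ST_GRM) (h4 : ST_KUP) : ST_FNP := by
  intro x
  obtain ⟨p, q, X, hq, h2q, h10, cr⟩ := x
  have hM0 : (0 : ℝ) < X.M := by linarith [X.lo]
  have hp : 0 < p := Nat.pos_of_ne_zero (NeZero.ne p)
  have hq' : (0 : ℝ) < q := by exact_mod_cast hq
  have hp' : (0 : ℝ) < p := by exact_mod_cast hp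
  refine ⟨?_, ?_, ?_, ?_, ?_⟩
  · exact h3 (ZMod p × X.G) (Ten (KC p q) X.R) X.M hM0
      (h2 (ZMod p) X.G (KC p q) X.R X.M hM0.le X.hi.le cr X.cert)
  · intro S hS
    have h5 := h1 p q hq h2q X.G X.R X.ti (fun I hI => by
      have h6 := X.ind I hI
      calc p * I.card ≤ 10 * q * I.card := Nat.mul_le_mul_right _ h10
        _ = q * (10 * I.card) := by ring
        _ ≤ q * Fintype.card X.G := Nat.mul_le_mul_left _ h6.le) S hS
    have h7 : Fintype.card (ZMod p × X.G) = p * Fintype.card X.G := by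
      rw [Fintype.card_prod, ZMod.card]
    show (p : ℝ) / q * (S.card : ℝ) ≤ (Fintype.card (ZMod p × X.G) : ℕ)
    rw [h7, div_mul_eq_mul_div, div_le_iff₀ hq']
    push_cast
    have h8 : (S.card : ℝ) ≤ q * Fintype.card X.G := by exact_mod_cast h5
    calc (p : ℝ) * S.card ≤ p * (q * Fintype.card X.G) := mul_le_mul_of_nonneg_left h8 hp'.le
      _ = _ := by ring
  · obtain ⟨d, v, hv1, hv2⟩ := X.upt
    exact ⟨d, fun y => v y.2, fun y => hv1 y.2, fun a b hab => hv2 a.2 b.2 hab.2⟩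
  · obtain ⟨J, fJ, nJ, I, hI1, hI2⟩ := h4 p q hq h2q
    exact ⟨J, fJ, nJ, fun j => {y | y.1 ∈ I j}, fun j a ha b hb hab => hI1 j a.1 ha b.1 hb hab.1,
      fun y => hI2 y.1⟩
  · obtain ⟨A, hA1, hA2, -, -⟩ := X.cert
    have h5 : ∃ y, A 0 y ≠ 0 := by
      by_contra hc
      push Not at hc
      have := hA2 0
      rw [Finset.sum_eq_zero fun y _ => hc y] at this
      exact zero_ne_one this
    obtain ⟨y, hy⟩ := h5
    have h6 : X.R.Adj 0 y := by
      by_contra hc
      exact hy (hA1 0 y hc)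
    have hqp : q < p := by omega
    have hqv : ((q : ℕ) : ZMod p).val = q := ZMod.val_cast_of_lt hqp
    have hq0 : ((q : ℕ) : ZMod p) ≠ 0 := by
      intro h0
      rw [h0, ZMod.val_zero] at hqv
      omega
    have hnv : (-((q : ℕ) : ZMod p)).val = p - q := by
      haveI : NeZero ((q : ℕ) : ZMod p) := ⟨hq0⟩
      rw [ZMod.val_neg_of_ne_zero, hqv]
    refine ⟨((0 : ZMod p), (0 : X.G)), (((q : ℕ) : ZMod p), y), ⟨?_, ?_, ?_⟩, h6⟩
    · exact fun h => hq0 h.symm
    · show q ≤ ((0 : ZMod p) - ((q : ℕ) : ZMod p)).val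
      rw [zero_sub, hnv]
      omega
    · show q ≤ (((q : ℕ) : ZMod p) - (0 : ZMod p)).val
      rw [sub_zero, hqv]

end Pool.Agent.Helper14.FO
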