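import Pool.Agent.Helper14.FO.Defs

/-! SPC: spectral certificate of circular cliques -/

set_option autoImplicit false

namespace Pool.Agent.Helper14.FO

open Finset Matrix

variable {p : ℕ} [NeZero p]

/-- the two-step circulant matrix -/
noncomputable def spcA (d : ZMod p) : Matrix (ZMod p) (ZMod p) ℝ := fun x y =>
  1 / 2 * ((if y = x + d then 1 else 0) + (if y = x - d then 1 else 0))

theorem spc_shift (f : ZMod p → ℝ) (a : ZMod p) : ∑ x, f (x + a) = ∑ x, f x :=
  Equiv.sum_comp (Equiv.addRight a) f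

theorem spc_mulVec (d : ZMod p) (f : ZMod p → ℝ) (x : ZMod p) :
    (spcA d *ᵥ f) x = 1 / 2 * (f (x + d) + f (x - d)) := by
  unfold Matrix.mulVec dotProduct spcA
  simp only [mul_assoc, add_mul, ite_mul, one_mul, zero_mul]
  rw [← Finset.mul_sum, Finset.sum_add_distrib]
  simp

theorem spc_form (d : ZMod p) (f : ZMod p → ℝ) :
    f ⬝ᵥ (spcA d *ᵥ f) = ∑ x, f x * f (x + d) := by
  unfold dotProduct
  simp only [spc_mulVec]
  have h1 : ∑ x, f x * f (x - d) = ∑ x, f x * f (x + d) := by
    rw [← spc_shift (fun x => f x * f (x - d)) d]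
    refine Finset.sum_congr rfl fun x _ => ?_
    simp only [add_sub_cancel_right]
    ring
  have h2 : ∀ x, f x * (1 / 2 * (f (x + d) + f (x - d))) =
      1 / 2 * (f x * f (x + d)) + 1 / 2 * (f x * f (x - d)) := fun x => by ring
  simp only [h2]
  rw [Finset.sum_add_distrib, ← Finset.mul_sum, ← Finset.mul_sum, h1]
  ring

theorem spc_symm (d : ZMod p) : (spcA d).IsHermitian := by
  ext x y
  rw [Matrix.conjTranspose_apply]
  simp only [spcA, star_trivial]
  have h1 : (x = y + d) ↔ (y = x - d) := by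
    constructor
    · rintro rfl; ring
    · rintro rfl; ring
  have h2 : (x = y - d) ↔ (y = x + d) := by
    constructor
    · rintro rfl; ring
    · rintro rfl; ring
  simp only [h1, h2]
  ring

theorem spc_alt (a : ℕ → ℝ) (m : ℕ) :
    ∑ j ∈ range m, (-1 : ℝ) ^ j * (a j + a (j + 1)) = a 0 - (-1) ^ m * a m := by
  induction m with
  | zero => simp
  | succ m ih => rw [Finset.sum_range_succ, ih, pow_succ]; ring

theorem spc_low (m : ℕ) (hm : Odd m) (d : ZMod p) (hd : (m : ZMod p) * d = 0) (f : ZMod p → ℝ) :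
    4 * ∑ x, f x ^ 2 ≤ (m : ℝ) ^ 2 * (2 * ∑ x, f x ^ 2 + 2 * ∑ x, f x * f (x + d)) := by
  have h1 : ∀ x, (2 * f x) ^ 2 ≤ m * ∑ j ∈ range m,
      (f (x + (j : ZMod p) * d) + f (x + ((j + 1 : ℕ) : ZMod p) * d)) ^ 2 := by
    intro x
    have h2 := spc_alt (fun j => f (x + (j : ZMod p) * d)) m
    simp only [hm.neg_one_pow, hd, Nat.cast_zero, zero_mul, add_zero] at h2
    have h4 := Finset.sum_mul_sq_le_sq_mul_sq (range m) (fun j => (-1 : ℝ) ^ j)
      (fun j => f (x + (j : ZMod p) * d) + f (x + ((j + 1 : ℕ) : ZMod p) * d))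
    rw [h2] at h4
    have h5 : ∑ i ∈ range m, ((-1 : ℝ) ^ i) ^ 2 = m := by
      have : ∀ i ∈ range m, ((-1 : ℝ) ^ i) ^ 2 = 1 := by
        intro i _
        rw [← pow_mul, mul_comm, pow_mul]
        norm_num
      rw [Finset.sum_congr rfl this]
      simp
    rw [h5] at h4
    refine le_trans (le_of_eq ?_) h4
    ring
  have h6 : ∀ j : ℕ, ∑ x, (f (x + (j : ZMod p) * d) + f (x + ((j + 1 : ℕ) : ZMod p) * d)) ^ 2 =
      2 * ∑ x, f x ^ 2 + 2 * ∑ x, f x * f (x + d) := by
    intro j
    have h7 : ∀ x, (f (x + (j : ZMod p) * d) + f (x + ((j + 1 : ℕ) : ZMod p) * d)) ^ 2 =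
        (fun y => (f y + f (y + d)) ^ 2) (x + (j : ZMod p) * d) := by
      intro x
      have : x + ((j + 1 : ℕ) : ZMod p) * d = x + (j : ZMod p) * d + d := by
        push_cast
        ring
      rw [this]
    rw [Finset.sum_congr rfl fun x _ => h7 x,
      spc_shift (fun y => (f y + f (y + d)) ^ 2) ((j : ZMod p) * d)]
    have h8 : ∀ y, (f y + f (y + d)) ^ 2 = f y ^ 2 + f (y + d) ^ 2 + 2 * (f y * f (y + d)) :=
      fun y => by ring
    simp only [h8]
    rw [Finset.sum_add_distrib, Finset.sum_add_distrib, spc_shift (fun y => f y ^ 2) d,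
      ← Finset.mul_sum]
    ring
  calc 4 * ∑ x, f x ^ 2 = ∑ x, (2 * f x) ^ 2 := by
        rw [Finset.mul_sum]
        exact Finset.sum_congr rfl fun x _ => by ring
    _ ≤ ∑ x, m * ∑ j ∈ range m,
        (f (x + (j : ZMod p) * d) + f (x + ((j + 1 : ℕ) : ZMod p) * d)) ^ 2 :=
        Finset.sum_le_sum fun x _ => h1 x
    _ = m * ∑ j ∈ range m, (2 * ∑ x, f x ^ 2 + 2 * ∑ x, f x * f (x + d)) := by
        rw [← Finset.mul_sum, Finset.sum_comm]
        congr 1
        exact Finset.sum_congr rfl fun j _ => h6 j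
    _ = _ := by
        rw [Finset.sum_const, Finset.card_range, nsmul_eq_mul]
        ring

theorem st_SPC : ST_SPC := by
  intro m p q _ hm hm3 hmp hq hqp
  obtain ⟨k, rfl⟩ := hmp
  obtain ⟨h, rfl⟩ := hm
  have hk : 0 < k := by
    rcases Nat.eq_zero_or_pos k with rfl | hk
    · exact absurd (mul_zero _) (NeZero.ne ((2 * h + 1) * 0))
    · exact hk
  have hh : 1 ≤ h := by omega
  have hkh : k * h < (2 * h + 1) * k := by nlinarith
  have hqk : q ≤ k * h := by
    have h1 : 2 * (2 * h + 1) * q ≤ (2 * h + 1) * k * (2 * h) := by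
      simpa using hqp
    have h2 : (2 * (2 * h + 1)) * q ≤ (2 * (2 * h + 1)) * (k * h) := by
      calc (2 * (2 * h + 1)) * q ≤ (2 * h + 1) * k * (2 * h) := h1
        _ = (2 * (2 * h + 1)) * (k * h) := by ring
    exact Nat.le_of_mul_le_mul_left h2 (by positivity)
  set d : ZMod ((2 * h + 1) * k) := ((k * h : ℕ) : ZMod ((2 * h + 1) * k)) with hd
  have hdv : d.val = k * h := ZMod.val_cast_of_lt hkh
  have hd0 : d ≠ 0 := by
    intro h0
    rw [h0, ZMod.val_zero] at hdv
    have : 0 < k * h := by positivity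
    omega
  have hndv : (-d).val = (2 * h + 1) * k - k * h := by
    haveI : NeZero d := ⟨hd0⟩
    rw [ZMod.val_neg_of_ne_zero, hdv]
  have hq1 : q ≤ d.val := by rw [hdv]; exact hqk
  have hq2 : q ≤ (-d).val := by
    rw [hndv]
    have : (2 * h + 1) * k = k * h + (k * h + k) := by ring
    omega
  have hmd : ((2 * h + 1 : ℕ) : ZMod ((2 * h + 1) * k)) * d = 0 := by
    rw [hd, ← Nat.cast_mul]
    have : (2 * h + 1) * (k * h) = ((2 * h + 1) * k) * h := by ring
    rw [this, Nat.cast_mul, ZMod.natCast_self, zero_mul]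
  have hm0 : (0 : ℝ) < ((2 * h + 1 : ℕ) : ℝ) ^ 2 := by positivity
  refine ⟨spcA d, ?_, ?_, ?_, ?_⟩
  · intro x y hxy
    have h1 : y ≠ x + d := by
      rintro rfl
      apply hxy
      refine ⟨?_, ?_, ?_⟩
      · intro h0
        exact hd0 (left_eq_add.1 h0)
      · rw [sub_add_cancel_left]
        exact hq2
      · rw [add_sub_cancel_left]
        exact hq1
    have h2 : y ≠ x - d := by
      rintro rfl
      apply hxy
      refine ⟨?_, ?_, ?_⟩
      · intro h0
        have h3 : x - (x - d) = 0 := by rw [← h0]; ring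
        rw [sub_sub_cancel] at h3
        exact hd0 h3
      · rw [sub_sub_cancel]
        exact hq1
      · have : x - d - x = -d := by ring
        rw [this]
        exact hq2
    unfold spcA
    rw [if_neg h1, if_neg h2]
    norm_num
  · intro x
    have := spc_mulVec d (fun _ => (1 : ℝ)) x
    unfold Matrix.mulVec dotProduct at this
    simp only [mul_one] at this
    rw [this]
    norm_num
  · refine Matrix.PosSemidef.of_dotProduct_mulVec_nonneg ((spc_symm d).add ?_) fun f => ?_
    · ext x y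
      simp only [Matrix.conjTranspose_apply, Matrix.smul_apply, Matrix.one_apply, star_trivial]
      by_cases h1 : x = y
      · simp [h1]
      · simp [h1, Ne.symm h1]
    · rw [star_trivial, Matrix.add_mulVec, dotProduct_add, spc_form, Matrix.smul_mulVec,
        Matrix.one_mulVec, dotProduct_smul, smul_eq_mul]
      have h1 := spc_low (2 * h + 1) ⟨h, rfl⟩ d hmd f
      have h2 : f ⬝ᵥ f = ∑ x, f x ^ 2 := by
        unfold dotProduct
        exact Finset.sum_congr rfl fun x _ => by ring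
      rw [h2]
      set S := ∑ x, f x ^ 2
      set T := ∑ x, f x * f (x + d)
      have h3 : 4 * S / ((2 * h + 1 : ℕ) : ℝ) ^ 2 ≤ 2 * S + 2 * T := by
        rw [div_le_iff₀ hm0]
        linarith
      have h4 : (1 - 2 / ((2 * h + 1 : ℕ) : ℝ) ^ 2) * S = S - 4 * S / ((2 * h + 1 : ℕ) : ℝ) ^ 2 / 2 := by
        field_simp
        ring
      rw [h4]
      linarith
  · refine Matrix.PosSemidef.of_dotProduct_mulVec_nonneg (Matrix.isHermitian_one.sub (spc_symm d))
      fun f => ?_
    rw [star_trivial, Matrix.sub_mulVec, dotProduct_sub, spc_form, Matrix.one_mulVec]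
    have h2 : f ⬝ᵥ f = ∑ x, f x ^ 2 := by
      unfold dotProduct
      exact Finset.sum_congr rfl fun x _ => by ring
    rw [h2]
    have h3 : 0 ≤ ∑ x, (f x - f (x + d)) ^ 2 := Finset.sum_nonneg fun x _ => sq_nonneg _
    have h8 : ∀ y, (f y - f (y + d)) ^ 2 = f y ^ 2 + f (y + d) ^ 2 - 2 * (f y * f (y + d)) :=
      fun y => by ring
    simp only [h8] at h3
    rw [Finset.sum_sub_distrib, Finset.sum_add_distrib, spc_shift (fun y => f y ^ 2) d,
      ← Finset.mul_sum] at h3
    linarith

end Pool.Agent.Helper14.FO
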